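import Pool.Agent.helper99.EP.Spec

/-!
# Project EP (MP_bf63dc_nt): row MXC (the maximum clique)
-/

set_option autoImplicit false

open Finset

namespace Pool.Agent.EP

/-- a set of positive integers without two different related elements -/
def MXC_free (R : ℕ → ℕ → Prop) (X : Finset ℕ) : Prop := (∀ s ∈ X, 1 ≤ s) ∧ ∀ s ∈ X, ∀ t ∈ X, s ≠ t → ¬ R s t

open Classical in
theorem MXC_max (k : ℕ) (R : ℕ → ℕ → Prop) (hk : ∀ X, MXC_free R X → X.card ≤ k) :
    ∃ S, MXC_free R S ∧ ∀ X, MXC_free R X → X.card ≤ S.card := by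
  have h0 : ∃ X, MXC_free R X ∧ X.card = 0 :=
    ⟨∅, ⟨fun s hs => absurd hs (Finset.notMem_empty s), fun s hs => absurd hs (Finset.notMem_empty s)⟩, Finset.card_empty⟩
  obtain ⟨S, hS, hSc⟩ := Nat.findGreatest_spec (P := fun m => ∃ X, MXC_free R X ∧ X.card = m) (Nat.zero_le k) h0
  refine ⟨S, hS, fun X hX => ?_⟩
  rw [hSc]
  exact Nat.le_findGreatest (hk X hX) ⟨X, hX, rfl⟩

theorem MXC : MXC_stmt := by
  intro k R hsym hrefl hcan hX
  have hk : ∀ X, MXC_free R X → X.card ≤ k := by
    intro X hF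
    by_contra h
    obtain ⟨s, hs, t, ht, hne, hR⟩ := hX X hF.1 (not_le.1 h)
    exact hF.2 s hs t ht hne hR
  obtain ⟨S, hS, hmax⟩ := MXC_max k R hk
  refine ⟨S, hk S hS, hS.1, fun a b ha hb => ?_⟩
  by_contra hcon
  have hcon' : ∀ s ∈ S, ¬ R (s * a) b := fun s hs h => hcon ⟨s, hs, h⟩
  have hbn : b ∉ S.image (fun s => s * a) := by
    intro hmem
    obtain ⟨s, hs, hsb⟩ := Finset.mem_image.1 hmem
    have hsb' : s * a = b := hsb
    apply hcon' s hs
    rw [hsb']
    exact hrefl b hb
  have hinj : Function.Injective (fun s : ℕ => s * a) := fun s t hst => Nat.eq_of_mul_eq_mul_right ha hst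
  have hF : MXC_free R (insert b (S.image (fun s => s * a))) := by
    refine ⟨fun x hx => ?_, fun x hx y hy hxy => ?_⟩
    · rcases Finset.mem_insert.1 hx with rfl | hx
      · exact hb
      · obtain ⟨s, hs, rfl⟩ := Finset.mem_image.1 hx
        exact Nat.mul_pos (hS.1 s hs) ha
    · rcases Finset.mem_insert.1 hx with rfl | hx
      · rcases Finset.mem_insert.1 hy with rfl | hy
        · exact absurd rfl hxy
        · obtain ⟨t, ht, rfl⟩ := Finset.mem_image.1 hy
          exact fun h => hcon' t ht (hsym _ _ h)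
      · obtain ⟨s, hs, rfl⟩ := Finset.mem_image.1 hx
        rcases Finset.mem_insert.1 hy with rfl | hy
        · exact fun h => hcon' s hs h
        · obtain ⟨t, ht, rfl⟩ := Finset.mem_image.1 hy
          intro h
          have hst : s ≠ t := fun h' => hxy (by rw [h'])
          exact hS.2 s hs t ht hst (hcan a s t ha (hS.1 s hs) (hS.1 t ht) h)
  have h1 := hmax _ hF
  rw [Finset.card_insert_of_notMem hbn, Finset.card_image_of_injective _ hinj] at h1
  omega

end Pool.Agent.EP
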