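import Pool.Agent.helper71.EP.SpecE
import Pool.Agent.helper95.TG.WT4of
import Pool.Agent.helper18.TG.WT1

/-!
# Project ep: (MP_ebc808_nt), module EMC: the model count
-/

set_option autoImplicit false

open Finset
open scoped Real
open Pool.Agent.helper74.TG

namespace Pool.Agent.EP

/-- The resonance condition. -/
def EMC_res (r s : Σ _ : ℕ, ℕ) : Prop := ∃ k : ℤ, (s.2 : ℝ) / s.1 - 4 * ((r.2 : ℝ) / r.1) = k

/-- The contribution of a pair. -/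
noncomputable def EMC_T (m c c' T : ℕ) (r s : Σ _ : ℕ, ℕ) : ℂ :=
  Hc m c r.2 r.1 * Hc m c' s.2 s.1 *
    ∑ t ∈ Ioc 0 T, ee ((r.2 : ℝ) * ((hq m t : ℝ) - 1) / r.1) *
      ∑ y ∈ Ioc 0 (Yt m t), ee (y * ((s.2 : ℝ) / s.1 - 4 * ((r.2 : ℝ) / r.1)))

theorem EMC_Hle {m c Q : ℕ} (hm : 0 < m) {r : Σ _ : ℕ, ℕ} (hr : r ∈ Fa Q) :
    ‖Hc m c r.2 r.1‖ ≤ 1 := by
  have hr' := h95_mem_Fa.1 hr
  refine (Hc_bound m c r.2 r.1 hm hr'.1.1 hr'.2.2).trans ?_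
  rw [div_le_one (by exact_mod_cast Nat.totient_pos.2 hr'.1.1)]
  exact_mod_cast Nat.totient_pos.2 hr'.1.1

theorem EMC_nonres (hENR : ENR_stmt) {m c c' T Q : ℕ} (hm : 0 < m) {r s : Σ _ : ℕ, ℕ}
    (hr : r ∈ Fa Q) (hs : s ∈ Fa Q) (h : ¬ EMC_res r s) :
    ‖EMC_T m c c' T r s‖ ≤ T * ((Q : ℝ) ^ 2 / 2) := by
  unfold EMC_T
  rw [norm_mul, norm_mul]
  have h1 : ‖Hc m c r.2 r.1‖ * ‖Hc m c' s.2 s.1‖ ≤ 1 := by
    calc ‖Hc m c r.2 r.1‖ * ‖Hc m c' s.2 s.1‖ ≤ 1 * 1 :=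
          mul_le_mul (EMC_Hle hm hr) (EMC_Hle hm hs) (norm_nonneg _) zero_le_one
      _ = 1 := one_mul 1
  have h2 : ‖∑ t ∈ Ioc 0 T, ee ((r.2 : ℝ) * ((hq m t : ℝ) - 1) / r.1) *
      ∑ y ∈ Ioc 0 (Yt m t), ee (y * ((s.2 : ℝ) / s.1 - 4 * ((r.2 : ℝ) / r.1)))‖ ≤
      T * ((Q : ℝ) ^ 2 / 2) := by
    refine (norm_sum_le _ _).trans ?_
    calc ∑ t ∈ Ioc 0 T, ‖ee ((r.2 : ℝ) * ((hq m t : ℝ) - 1) / r.1) *
          ∑ y ∈ Ioc 0 (Yt m t), ee (y * ((s.2 : ℝ) / s.1 - 4 * ((r.2 : ℝ) / r.1)))‖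
        ≤ ∑ t ∈ Ioc 0 T, ((Q : ℝ) ^ 2 / 2) := by
          refine sum_le_sum fun t _ => ?_
          rw [norm_mul, h85_norm_ee, one_mul]
          exact hENR Q (Yt m t) r s hr hs h
      _ = T * ((Q : ℝ) ^ 2 / 2) := by rw [sum_const, nsmul_eq_mul, Nat.card_Ioc, Nat.sub_zero]
  calc ‖Hc m c r.2 r.1‖ * ‖Hc m c' s.2 s.1‖ * _ ≤ 1 * (T * ((Q : ℝ) ^ 2 / 2)) :=
        mul_le_mul h1 h2 (norm_nonneg _) zero_le_one
    _ = T * ((Q : ℝ) ^ 2 / 2) := one_mul _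

theorem EMC_inner {r s : Σ _ : ℕ, ℕ} (h : EMC_res r s) (m T : ℕ) :
    (∑ t ∈ Ioc 0 T, ee ((r.2 : ℝ) * ((hq m t : ℝ) - 1) / r.1) *
      ∑ y ∈ Ioc 0 (Yt m t), ee (y * ((s.2 : ℝ) / s.1 - 4 * ((r.2 : ℝ) / r.1)))) =
    ∑ t ∈ Ioc 0 T, ee ((r.2 : ℝ) * ((hq m t : ℝ) - 1) / r.1) * (Yt m t : ℂ) := by
  obtain ⟨k, hk⟩ := h
  refine sum_congr rfl fun t _ => ?_
  congr 1
  rw [hk]
  calc ∑ y ∈ Ioc 0 (Yt m t), ee ((y : ℝ) * (k : ℝ)) = ∑ y ∈ Ioc 0 (Yt m t), (1 : ℂ) :=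
        sum_congr rfl fun y _ => h95_ee_int y k
    _ = (Yt m t : ℂ) := by rw [sum_const, nsmul_eq_mul, Nat.card_Ioc, Nat.sub_zero, mul_one]

theorem EMC_one {m c c' T : ℕ} (hm : 0 < m) :
    EMC_T m c c' T ⟨1, 0⟩ ⟨1, 0⟩ = ∑ t ∈ Ioc 0 T, (Yt m t : ℂ) := by
  unfold EMC_T
  rw [EMC_inner ⟨0, by simp⟩]
  simp only [Hc_one m c hm, Hc_one m c' hm, one_mul]
  refine sum_congr rfl fun t _ => ?_
  rw [show ((0 : ℕ) : ℝ) * ((hq m t : ℝ) - 1) / ((1 : ℕ) : ℝ) = 0 by simp, h85_ee_zero, one_mul]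

theorem EMC_term (hERT : ERT_stmt) (hERC : ERC_stmt) {m c c' T Q : ℕ} (hm : 0 < m) (h6 : 6 ∣ m)
    {r s : Σ _ : ℕ, ℕ} (hr : r ∈ Fa Q) (hs : s ∈ Fa Q) (h : EMC_res r s)
    (hcop : Nat.Coprime r.1 m) (hodd : r.1 % 2 = 1) :
    ‖EMC_T m c c' T r s‖ ≤ 1 / (Nat.totient r.1 : ℝ) ^ 2 *
      (Yt m T * ((T : ℝ) / √(r.1 : ℝ) + r.1)) := by
  have hr' := h95_mem_Fa.1 hr
  have hs' := h95_mem_Fa.1 hs
  have hsr : s.1 = r.1 := by rw [hERC Q r s hr hs hodd h]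
  have hφ : (0 : ℝ) < Nat.totient r.1 := by exact_mod_cast Nat.totient_pos.2 hr'.1.1
  unfold EMC_T
  rw [EMC_inner h, norm_mul, norm_mul]
  have h1 : ‖Hc m c r.2 r.1‖ * ‖Hc m c' s.2 s.1‖ ≤ 1 / (Nat.totient r.1 : ℝ) ^ 2 := by
    have e1 := Hc_bound m c r.2 r.1 hm hr'.1.1 hr'.2.2
    have e2 := Hc_bound m c' s.2 s.1 hm hs'.1.1 hs'.2.2
    rw [hsr] at e2
    rw [hsr]
    calc ‖Hc m c r.2 r.1‖ * ‖Hc m c' s.2 r.1‖ ≤
          (1 / (Nat.totient r.1 : ℝ)) * (1 / (Nat.totient r.1 : ℝ)) :=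
          mul_le_mul e1 e2 (norm_nonneg _) (by positivity)
      _ = 1 / (Nat.totient r.1 : ℝ) ^ 2 := by field_simp
  have hc6 : Nat.Coprime r.1 (6 * m) :=
    Nat.Coprime.mul_right (Nat.Coprime.coprime_dvd_right h6 hcop) hcop
  have h2 := hERT m r.2 r.1 T hr'.1.1 hc6 hr'.2.2
  exact mul_le_mul h1 h2 (norm_nonneg _) (by positivity)

/-- A number `q > 1` coprime to `m` is greater than `p₀` if `m` is divisible by all primes `≤ p₀`. -/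
theorem EMC_big {m p₀ q : ℕ} (hp : ∀ p : ℕ, p.Prime → p ≤ p₀ → p ∣ m) (hq : 1 < q)
    (hcop : Nat.Coprime q m) : p₀ < q := by
  by_contra hlt
  push Not at hlt
  have h1 : q.minFac.Prime := Nat.minFac_prime (by omega)
  have h2 : q.minFac ∣ q := Nat.minFac_dvd q
  have h3 : q.minFac ≤ p₀ := (Nat.le_of_dvd (by omega) h2).trans hlt
  have h4 : q.minFac ∣ Nat.gcd q m := Nat.dvd_gcd h2 (hp _ h1 h3)
  rw [hcop] at h4
  exact h1.one_lt.ne' (Nat.dvd_one.1 h4)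

open Classical in
/-- The bound for the resonant pairs with given `r`. -/
noncomputable def EMC_G (m T : ℕ) (q : ℕ) : ℝ :=
  if 1 < q ∧ Nat.Coprime q m ∧ Squarefree q then
    1 / (Nat.totient q : ℝ) ^ 2 * (Yt m T * ((T : ℝ) / √(q : ℝ) + q)) else 0

theorem EMC_G_nonneg (m T q : ℕ) : 0 ≤ EMC_G m T q := by
  unfold EMC_G
  split_ifs
  · positivity
  · exact le_refl _

open Classical in
theorem EMC_rsum (hERT : ERT_stmt) (hERC : ERC_stmt) {m c c' T Q : ℕ} (hm : 0 < m) (h6 : 6 ∣ m)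
    {r : Σ _ : ℕ, ℕ} (hr : r ∈ Fa Q) (hr1 : 1 < r.1) :
    ∑ s ∈ (Fa Q).filter (fun s => EMC_res r s), ‖EMC_T m c c' T r s‖ ≤ EMC_G m T r.1 := by
  have hr' := h95_mem_Fa.1 hr
  by_cases hgood : Nat.Coprime r.1 m ∧ Squarefree r.1
  · obtain ⟨hcop, hsq⟩ := hgood
    have hodd : r.1 % 2 = 1 := by
      have h2 : Nat.Coprime r.1 2 :=
        Nat.Coprime.coprime_dvd_right ((by norm_num : 2 ∣ 6).trans h6) hcop
      exact Nat.odd_iff.1 (Nat.coprime_two_right.1 h2)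
    have hsub : (Fa Q).filter (fun s => EMC_res r s) ⊆ {⟨r.1, (4 * r.2) % r.1⟩} := by
      intro s hs
      rw [mem_filter] at hs
      rw [mem_singleton]
      exact hERC Q r s hr hs.1 hodd hs.2
    have hG : EMC_G m T r.1 = 1 / (Nat.totient r.1 : ℝ) ^ 2 *
        (Yt m T * ((T : ℝ) / √(r.1 : ℝ) + r.1)) := by
      unfold EMC_G
      rw [if_pos ⟨hr1, hcop, hsq⟩]
    rcases (Finset.subset_singleton_iff.1 hsub) with h0 | h0
    · rw [h0, sum_empty]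
      exact EMC_G_nonneg m T r.1
    · rw [h0, sum_singleton, hG]
      have hmem : (⟨r.1, (4 * r.2) % r.1⟩ : Σ _ : ℕ, ℕ) ∈
          (Fa Q).filter (fun s => EMC_res r s) := by
        rw [h0]; exact mem_singleton_self _
      rw [mem_filter] at hmem
      exact EMC_term hERT hERC hm h6 hr hmem.1 hmem.2 hcop hodd
  · have hz : Hc m c r.2 r.1 = 0 := Hc_zero m c r.2 r.1 hm hr'.1.1 hr'.2.2 (by tauto)
    have : ∑ s ∈ (Fa Q).filter (fun s => EMC_res r s), ‖EMC_T m c c' T r s‖ = 0 := by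
      refine sum_eq_zero fun s _ => ?_
      unfold EMC_T
      rw [hz, zero_mul, zero_mul, norm_zero]
    rw [this]
    exact EMC_G_nonneg m T r.1

theorem EMC_sumG (hESQ : ESQ_stmt) {m T Q p₀ : ℕ} (h6 : 6 ∣ m) (hp1 : 1 ≤ p₀)
    (hp : ∀ p : ℕ, p.Prime → p ≤ p₀ → p ∣ m) :
    ∑ r ∈ Fa Q, EMC_G m T r.1 ≤
      Yt m T * ((T : ℝ) * (4 / (p₀ : ℝ) ^ (1 / 4 : ℝ)) + (Q : ℝ) ^ 2) := by
  have h1 : ∑ r ∈ Fa Q, EMC_G m T r.1 =
      ∑ q ∈ Ioc 0 Q, (Nat.totient q : ℝ) * EMC_G m T q := by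
    rw [Fa, sum_sigma]
    refine sum_congr rfl fun q _ => ?_
    have hc : #((range q).filter (fun a => Nat.Coprime a q)) = Nat.totient q := by
      rw [Nat.totient]
      congr 1
      exact Finset.filter_congr fun a _ => Nat.coprime_comm
    calc ∑ a ∈ (range q).filter (fun a => Nat.Coprime a q), EMC_G m T q
        = #((range q).filter (fun a => Nat.Coprime a q)) * EMC_G m T q := by
          rw [sum_const, nsmul_eq_mul]
      _ = (Nat.totient q : ℝ) * EMC_G m T q := by rw [hc]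
  have h2 : ∀ q ∈ Ioc 0 Q, (Nat.totient q : ℝ) * EMC_G m T q ≤
      (if p₀ < q then (Yt m T : ℝ) * T * (1 / (q : ℝ) ^ (5 / 4 : ℝ)) else 0) + Yt m T * Q := by
    intro q hq
    rw [mem_Ioc] at hq
    unfold EMC_G
    split_ifs with hg hb hb
    · obtain ⟨hq1, hcop, hsq⟩ := hg
      have hφ : (0 : ℝ) < Nat.totient q := by exact_mod_cast Nat.totient_pos.2 hq.1
      have hφ1 : (1 : ℝ) ≤ Nat.totient q := by exact_mod_cast Nat.totient_pos.2 hq.1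
      have hqr : (0 : ℝ) < q := by exact_mod_cast hq.1
      have hlow := totient_lower q hsq (Nat.Coprime.coprime_dvd_right h6 hcop)
      have e1 : (Nat.totient q : ℝ) * (1 / (Nat.totient q : ℝ) ^ 2 *
          (Yt m T * ((T : ℝ) / √(q : ℝ) + q))) =
          (Yt m T : ℝ) * T * (1 / (√(q : ℝ) * Nat.totient q)) +
            Yt m T * (q / Nat.totient q) := by
        have hs : (0 : ℝ) < √(q : ℝ) := Real.sqrt_pos.2 hqr
        field_simp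
      rw [e1]
      refine add_le_add ?_ ?_
      · refine mul_le_mul_of_nonneg_left ?_ (by positivity)
        refine one_div_le_one_div_of_le (by positivity) ?_
        calc (q : ℝ) ^ (5 / 4 : ℝ) = √(q : ℝ) * (q : ℝ) ^ (3 / 4 : ℝ) := by
              rw [Real.sqrt_eq_rpow, ← Real.rpow_add hqr]
              norm_num
          _ ≤ √(q : ℝ) * Nat.totient q := mul_le_mul_of_nonneg_left hlow (Real.sqrt_nonneg _)
      · refine mul_le_mul_of_nonneg_left ?_ (Nat.cast_nonneg _)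
        calc (q : ℝ) / Nat.totient q ≤ q / 1 := div_le_div_of_nonneg_left hqr.le one_pos hφ1
          _ = q := div_one _
          _ ≤ Q := by exact_mod_cast hq.2
    · exact absurd (EMC_big hp hg.1 hg.2.1) hb
    · rw [mul_zero]; positivity
    · rw [mul_zero]; positivity
  rw [h1]
  refine (sum_le_sum h2).trans ?_
  rw [sum_add_distrib, sum_const, nsmul_eq_mul, Nat.card_Ioc, Nat.sub_zero, ← sum_filter]
  have h3 : (Ioc 0 Q).filter (fun q => p₀ < q) = Ioc p₀ Q := by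
    ext q
    simp only [mem_filter, mem_Ioc]
    omega
  rw [h3, ← mul_sum]
  have h4 := hESQ p₀ Q hp1
  have h5 : (Yt m T : ℝ) * T * ∑ q ∈ Ioc p₀ Q, 1 / (q : ℝ) ^ (5 / 4 : ℝ) ≤
      (Yt m T : ℝ) * T * (4 / (p₀ : ℝ) ^ (1 / 4 : ℝ)) :=
    mul_le_mul_of_nonneg_left h4 (by positivity)
  calc _ ≤ (Yt m T : ℝ) * T * (4 / (p₀ : ℝ) ^ (1 / 4 : ℝ)) + (Q : ℝ) * (Yt m T * Q) :=
        add_le_add h5 (le_refl _)
    _ = _ := by ring

open Classical in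
theorem EMC_gen (hEXM : EXM_stmt) (hENR : ENR_stmt) (hERC : ERC_stmt) (hERT : ERT_stmt)
    (hESQ : ESQ_stmt) {m c c' T Q p₀ : ℕ} (hm : 0 < m) (h6 : 6 ∣ m) (hp1 : 1 ≤ p₀)
    (hp : ∀ p : ℕ, p.Prime → p ≤ p₀ → p ∣ m) (hQ : 1 ≤ Q) :
    ‖RR m T (gm m c Q) (gm m c' Q) - ∑ t ∈ Ioc 0 T, (Yt m t : ℂ)‖ ≤
      Yt m T * ((T : ℝ) * (4 / (p₀ : ℝ) ^ (1 / 4 : ℝ)) + (Q : ℝ) ^ 2) + T * (Q : ℝ) ^ 6 := by
  set one : Σ _ : ℕ, ℕ := ⟨1, 0⟩ with hone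
  have h1m : one ∈ Fa Q := h95_mem_Fa.2 ⟨⟨one_pos, hQ⟩, one_pos, Nat.coprime_one_right 0⟩
  have hres1 : EMC_res one one := ⟨0, by simp [hone]⟩
  have hX : RR m T (gm m c Q) (gm m c' Q) =
      ∑ r ∈ Fa Q, ∑ s ∈ Fa Q, EMC_T m c c' T r s := hEXM m c c' T Q
  -- only `one` resonates with `one`
  have honly : (Fa Q).filter (fun s => EMC_res one s) = {one} := by
    ext s
    rw [mem_filter, mem_singleton]
    constructor
    · rintro ⟨hs, hr⟩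
      have := hERC Q one s h1m hs (by simp [hone]) hr
      exact this.trans rfl
    · rintro rfl
      exact ⟨h1m, hres1⟩
  have hsplit : ∀ r : Σ _ : ℕ, ℕ, ∑ s ∈ Fa Q, EMC_T m c c' T r s =
      ∑ s ∈ (Fa Q).filter (fun s => EMC_res r s), EMC_T m c c' T r s +
        ∑ s ∈ (Fa Q).filter (fun s => ¬ EMC_res r s), EMC_T m c c' T r s := fun r =>
    (sum_filter_add_sum_filter_not _ _ _).symm
  have hmain : RR m T (gm m c Q) (gm m c' Q) - ∑ t ∈ Ioc 0 T, (Yt m t : ℂ) =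
      ∑ r ∈ (Fa Q).erase one, ∑ s ∈ (Fa Q).filter (fun s => EMC_res r s), EMC_T m c c' T r s +
      ∑ r ∈ Fa Q, ∑ s ∈ (Fa Q).filter (fun s => ¬ EMC_res r s), EMC_T m c c' T r s := by
    rw [hX, sum_congr rfl fun r _ => hsplit r, sum_add_distrib]
    rw [← add_sum_erase (Fa Q) (fun r => ∑ s ∈ (Fa Q).filter (fun s => EMC_res r s),
      EMC_T m c c' T r s) h1m]
    rw [honly, sum_singleton, hone, EMC_one hm]
    ring
  rw [hmain]
  refine (norm_add_le _ _).trans (add_le_add ?_ ?_)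
  · refine (norm_sum_le _ _).trans ?_
    refine le_trans (sum_le_sum (g := fun r => EMC_G m T r.1) fun r hr => ?_) ?_
    · obtain ⟨hne, hrm⟩ := mem_erase.1 hr
      have hr' := h95_mem_Fa.1 hrm
      have hr1 : 1 < r.1 := by
        by_contra hlt
        have e1 : r.1 = 1 := by omega
        have e2 : r.2 = 0 := by omega
        apply hne
        rw [hone]
        exact Sigma.ext e1 (heq_of_eq e2)
      exact (norm_sum_le _ _).trans (EMC_rsum hERT hERC hm h6 hrm hr1)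
    · refine le_trans (sum_le_sum_of_subset_of_nonneg (erase_subset _ _)
        fun r _ _ => EMC_G_nonneg m T r.1) ?_
      exact EMC_sumG hESQ h6 hp1 hp
  · refine (norm_sum_le _ _).trans ?_
    have hcard := h95_card_Fa Q
    have hb : ∀ r ∈ Fa Q, ‖∑ s ∈ (Fa Q).filter (fun s => ¬ EMC_res r s), EMC_T m c c' T r s‖ ≤
        (Q : ℝ) ^ 2 * (T * ((Q : ℝ) ^ 2 / 2)) := by
      intro r hr
      refine (norm_sum_le _ _).trans ?_
      calc ∑ s ∈ (Fa Q).filter (fun s => ¬ EMC_res r s), ‖EMC_T m c c' T r s‖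
          ≤ ∑ s ∈ (Fa Q).filter (fun s => ¬ EMC_res r s), (T * ((Q : ℝ) ^ 2 / 2)) := by
            refine sum_le_sum fun s hs => ?_
            rw [mem_filter] at hs
            exact EMC_nonres hENR hm hr hs.1 hs.2
        _ = #((Fa Q).filter (fun s => ¬ EMC_res r s)) * (T * ((Q : ℝ) ^ 2 / 2)) := by
            rw [sum_const, nsmul_eq_mul]
        _ ≤ (Q : ℝ) ^ 2 * (T * ((Q : ℝ) ^ 2 / 2)) := by
            refine mul_le_mul_of_nonneg_right ?_ (by positivity)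
            refine le_trans ?_ hcard
            exact_mod_cast card_filter_le _ _
    calc ∑ r ∈ Fa Q, ‖∑ s ∈ (Fa Q).filter (fun s => ¬ EMC_res r s), EMC_T m c c' T r s‖
        ≤ ∑ r ∈ Fa Q, (Q : ℝ) ^ 2 * (T * ((Q : ℝ) ^ 2 / 2)) := sum_le_sum hb
      _ = #(Fa Q) * ((Q : ℝ) ^ 2 * (T * ((Q : ℝ) ^ 2 / 2))) := by rw [sum_const, nsmul_eq_mul]
      _ ≤ (Q : ℝ) ^ 2 * ((Q : ℝ) ^ 2 * (T * ((Q : ℝ) ^ 2 / 2))) :=
          mul_le_mul_of_nonneg_right hcard (by positivity)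
      _ = T * (Q : ℝ) ^ 6 / 2 := by ring
      _ ≤ T * (Q : ℝ) ^ 6 := by
          have : 0 ≤ (T : ℝ) * (Q : ℝ) ^ 6 := by positivity
          linarith

theorem EMC (hEXM : EXM_stmt) (hENR : ENR_stmt) (hERC : ERC_stmt) (hERT : ERT_stmt)
    (hESQ : ESQ_stmt) : EMC_stmt := by
  intro m c c' T Q hm h6 hp hQ
  have h := EMC_gen hEXM hENR hERC hERT hESQ (c := c) (c' := c') (T := T) hm h6
    (p₀ := 10 ^ 8) (by norm_num) hp hQ
  have e : (4 : ℝ) / (((10 ^ 8 : ℕ) : ℝ)) ^ (1 / 4 : ℝ) = 1 / 25 := by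
    have : (((10 ^ 8 : ℕ) : ℝ)) = (100 : ℝ) ^ (4 : ℕ) := by norm_num
    rw [this, ← Real.rpow_natCast, ← Real.rpow_mul (by norm_num)]
    norm_num
  rw [e] at h
  calc _ ≤ _ := h
    _ = _ := by ring

end Pool.Agent.EP
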