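import Pool.Agent.helper71.EP.SpecE
import Pool.Agent.helper95.TG.WT4of

/-!
# Project ep: (MP_ebc808_nt), module ERC: resonant pairs
-/

set_option autoImplicit false

open Finset
open scoped Real
open Pool.Agent.helper74.TG

namespace Pool.Agent.EP

theorem ERC71 : ERC_stmt := by
  intro Q r s hr hs hodd hres
  obtain ⟨k, hk⟩ := hres
  obtain ⟨⟨hr0, _⟩, hr1, hr2⟩ := h95_mem_Fa.1 hr
  obtain ⟨⟨hs0, _⟩, hs1, hs2⟩ := h95_mem_Fa.1 hs
  have hr0' : (r.1 : ℝ) ≠ 0 := by exact_mod_cast hr0.ne'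
  have hs0' : (s.1 : ℝ) ≠ 0 := by exact_mod_cast hs0.ne'
  have h1 : (s.2 : ℝ) * r.1 = (4 * r.2 + k * r.1) * s.1 := by
    field_simp at hk
    linarith
  have h2 : (s.2 : ℤ) * r.1 = (4 * r.2 + k * r.1) * s.1 := by exact_mod_cast h1
  have hcop : IsCoprime ((4 * r.2 : ℤ) + k * r.1) (r.1 : ℤ) := by
    have c4 : Nat.Coprime (4 * r.2) r.1 := by
      refine Nat.Coprime.mul_left ?_ hr2
      have : Nat.Coprime 2 r.1 := (Nat.coprime_two_left).2 (Nat.odd_iff.2 hodd)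
      have h := Nat.Coprime.pow_left 2 this
      norm_num at h
      exact h
    have : IsCoprime ((4 * r.2 : ℕ) : ℤ) (r.1 : ℤ) := Nat.isCoprime_iff_coprime.2 c4
    push_cast at this
    exact IsCoprime.add_mul_right_left this k
  have hcop' : IsCoprime (s.2 : ℤ) (s.1 : ℤ) := Nat.isCoprime_iff_coprime.2 hs2
  have d1 : (r.1 : ℤ) ∣ s.1 := by
    have : (r.1 : ℤ) ∣ (4 * r.2 + k * r.1) * s.1 := ⟨s.2, by rw [← h2]; ring⟩
    exact hcop.symm.dvd_of_dvd_mul_left this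
  have d2 : (s.1 : ℤ) ∣ r.1 := by
    have : (s.1 : ℤ) ∣ s.2 * r.1 := ⟨4 * r.2 + k * r.1, by rw [h2]; ring⟩
    exact hcop'.symm.dvd_of_dvd_mul_left this
  have e1 : s.1 = r.1 := Nat.dvd_antisymm (by exact_mod_cast d2) (by exact_mod_cast d1)
  have hz : (r.1 : ℤ) ≠ 0 := by exact_mod_cast hr0.ne'
  rw [e1] at h2
  have e2 : (s.2 : ℤ) = 4 * r.2 + k * r.1 := mul_right_cancel₀ hz h2
  have e3 : s.2 = (4 * r.2) % r.1 := by
    have h3 : (s.2 : ℤ) % r.1 = s.2 :=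
      Int.emod_eq_of_lt (by positivity) (by rw [← e1]; exact_mod_cast hs1)
    have h4 : (4 * r.2 + k * r.1 : ℤ) % r.1 = (4 * r.2 : ℤ) % r.1 := Int.add_mul_emod_self_right _ _ _
    have h5 : (s.2 : ℤ) = ((4 * r.2 % r.1 : ℕ) : ℤ) := by
      push_cast
      rw [← h4, ← e2, h3]
    exact_mod_cast h5
  exact Sigma.ext e1 (heq_of_eq e3)

end Pool.Agent.EP
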