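import Pool.Agent.helper71.EP.SpecE

/-!
# Project ep: (MP_ebc808_nt), module ESQ: tail of the series of `q^(-5/4)`
-/

set_option autoImplicit false

open Finset
open scoped Real

namespace Pool.Agent.EP

theorem ESQ71_step {q : ℕ} (hq : 1 ≤ q) :
    1 / (((q + 1 : ℕ) : ℝ)) ^ (5 / 4 : ℝ) ≤
      4 * (1 / (q : ℝ) ^ (1 / 4 : ℝ) - 1 / (((q + 1 : ℕ) : ℝ)) ^ (1 / 4 : ℝ)) := by
  have hqr : (0 : ℝ) < q := by exact_mod_cast hq
  set u : ℝ := (q : ℝ) ^ (1 / 4 : ℝ) with hu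
  set v : ℝ := (((q + 1 : ℕ) : ℝ)) ^ (1 / 4 : ℝ) with hv
  have hu0 : 0 < u := by positivity
  have hv0 : 0 < v := by positivity
  have hu4 : u ^ 4 = (q : ℝ) := by
    rw [hu, ← Real.rpow_natCast, ← Real.rpow_mul (by positivity)]
    norm_num
  have hv4 : v ^ 4 = (q : ℝ) + 1 := by
    rw [hv, ← Real.rpow_natCast, ← Real.rpow_mul (by positivity)]
    norm_num
  have hv5 : (((q + 1 : ℕ) : ℝ)) ^ (5 / 4 : ℝ) = v ^ 5 := by
    rw [hv, ← Real.rpow_natCast, ← Real.rpow_mul (by positivity)]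
    norm_num
  have huv : u ≤ v := by
    rw [hu, hv]
    exact Real.rpow_le_rpow (by positivity) (by push_cast; linarith) (by norm_num)
  rw [hv5]
  have h1 : (v - u) * (v ^ 3 + v ^ 2 * u + v * u ^ 2 + u ^ 3) = 1 := by
    have : v ^ 4 - u ^ 4 = 1 := by rw [hu4, hv4]; ring
    linear_combination this
  have h2 : v ^ 3 + v ^ 2 * u + v * u ^ 2 + u ^ 3 ≤ 4 * v ^ 3 := by
    have e1 : v ^ 2 * u ≤ v ^ 2 * v := mul_le_mul_of_nonneg_left huv (by positivity)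
    have e2 : v * u ^ 2 ≤ v * v ^ 2 :=
      mul_le_mul_of_nonneg_left (pow_le_pow_left₀ hu0.le huv 2) hv0.le
    have e3 : u ^ 3 ≤ v ^ 3 := pow_le_pow_left₀ hu0.le huv 3
    nlinarith
  have h3 : 1 ≤ 4 * v ^ 3 * (v - u) := by
    calc (1 : ℝ) = (v - u) * (v ^ 3 + v ^ 2 * u + v * u ^ 2 + u ^ 3) := h1.symm
      _ ≤ (v - u) * (4 * v ^ 3) := mul_le_mul_of_nonneg_left h2 (by linarith)
      _ = 4 * v ^ 3 * (v - u) := by ring
  have e : 4 * (1 / u - 1 / v) = 4 * (v - u) / (u * v) := by field_simp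
  rw [e, div_le_div_iff₀ (by positivity) (by positivity)]
  have h4 : u * v ≤ v ^ 2 := by nlinarith
  calc 1 * (u * v) ≤ 1 * v ^ 2 := by linarith
    _ ≤ (4 * v ^ 3 * (v - u)) * v ^ 2 := mul_le_mul_of_nonneg_right h3 (by positivity)
    _ = 4 * (v - u) * v ^ 5 := by ring

theorem ESQ71_tel (p n : ℕ) (hp : 1 ≤ p) (hpn : p ≤ n) :
    ∑ q ∈ Ioc p n, 1 / (q : ℝ) ^ (5 / 4 : ℝ) ≤
      4 * (1 / (p : ℝ) ^ (1 / 4 : ℝ) - 1 / (n : ℝ) ^ (1 / 4 : ℝ)) := by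
  induction n, hpn using Nat.le_induction with
  | base => simp
  | succ n hn ih =>
    rw [← Finset.insert_Ioc_right_eq_Ioc_add_one hn, Finset.sum_insert (by simp)]
    have := ESQ71_step (q := n) (hp.trans hn)
    linarith

theorem ESQ71 : ESQ_stmt := by
  intro p n hp
  rcases le_or_gt p n with hpn | hpn
  · have h := ESQ71_tel p n hp hpn
    have h0 : 0 ≤ 1 / (n : ℝ) ^ (1 / 4 : ℝ) := by positivity
    calc _ ≤ _ := h
      _ ≤ 4 * (1 / (p : ℝ) ^ (1 / 4 : ℝ)) := by linarith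
      _ = 4 / (p : ℝ) ^ (1 / 4 : ℝ) := by ring
  · rw [Ioc_eq_empty (by omega), sum_empty]
    positivity

end Pool.Agent.EP
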