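import Pool.Agent.helper7.EP.AllA
import Pool.Agent.helper71.EP.ESQ
import Pool.Agent.helper71.EP.ERC
import Pool.Agent.helper31.EP.EAC
import Pool.Agent.helper67.EP.EAS
import Pool.Agent.helper93.EP.EM4
import Pool.Agent.helper11.EP.EQ4
import Pool.Agent.helper13.EP.EF4
import Pool.Agent.helper13.EP.EHO
import Pool.Agent.helper13.EP.EID
import Pool.Agent.helper38.EP.ETR
import Pool.Agent.helper95.EP.ECE
import Pool.Agent.helper29.EP.EQG
import Pool.Agent.helper59.EP.EIN
import Pool.Agent.helper59.EP.EAB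
import Pool.Agent.helper59.EP.ERT
import Pool.Agent.helper93.EP.ENR
import Pool.Agent.helper52.EP.EXM
import Pool.Agent.helper71.EP.EMC
import Pool.Agent.helper75.EP.ECM
import Pool.Agent.helper19.EP.ECT
import Pool.Agent.helper8.EP.ECP
import Pool.Agent.helper49.EP.EBO
import Pool.Agent.helper89.EP.EBN
import Pool.Agent.helper13.EP.EBM
import Pool.Agent.helper30.EP.EBC
import Pool.Agent.helper3.EP.EFI

/-!
# Project ep:, assembly of part E (odd values, every X)
-/

set_option autoImplicit false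

namespace Pool.Agent.EP

theorem all_EQ4 : EQ4_stmt := EQ4 EM4
theorem all_ETR : ETR_stmt := ETR EHO EID EF4
theorem all_ECE : ECE_stmt := ECE EAC EAS all_EQ4 all_ETR
theorem all_EIN : EIN_stmt := EIN EQG
theorem all_ERT : ERT_stmt := ERT all_EIN EAB
theorem all_EMC : EMC_stmt := EMC EXM ENR ERC71 all_ERT ESQ71
theorem all_ECM : ECM_stmt := ECM all_EMC
theorem all_ECT : ECT_stmt := ECT all_ECE all_ECM
theorem all_ECP : ECP_stmt := ECP all_ECT
theorem all_EBO : EBO_stmt := EBO all_IDK
theorem all_EBC : EBC_stmt := EBC all_EBO EBN EBM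
theorem all_EFI : EFI_stmt := EFI all_ECP all_EBC

end Pool.Agent.EP
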