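import Pool.Agent.helper7.EP.SpecA
import Pool.Agent.helper81.EP.SpecO
import Pool.Agent.helper74.TG.Defs

/-!
# Project ep (MP_ebc808_nt), part E: odd values of the partition function below EVERY X, exponent `3/4 - ε`

**Theorem** (EFI). For every `ε > 0` and all large `X` at least `X^(3/4-ε)` of the numbers `n ≤ X` have `p(n)` odd.

Idea. IDK with `a = 2`, `k = q` prime, `M = p = 3 u² - 4 q` prime: on the left side stands the term `JG ac q (-q) = 1` (`u' = u`), so one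
of the other terms is odd; if `p, q > 2 u` all common divisors are `1`, so this gives `n ≤ u⁴` with `p(n)` odd and
`24 n - 1 = (4q - 3w²) p` or `24 n - 1 = q (p - 3w²)/4`. Every `n` is obtained at most `2 D²` times (`D` = maximum of the divisor function). The pairs
`(u,q)`: there are `≥ c U³/log² U` with `u ≤ U`. This is shown with the exponential sums of the project TG (Pool/Agent/helper74/TG, namespace
`Pool.Agent.helper74.TG`: `fw` = weighted primes, `gm` = model, `EAC` below = sup norm of the difference of the exponential sums) and an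
`L⁴` bound for `∑ e(3u²α)`.

Every module proves one statement: `theorem XX (h : YY_stmt) ... : XX_stmt`, file `Pool/Agent/<seat>/EP/XX.lean`,
`import Pool.Agent.helper71.EP.SpecE`, `open Pool.Agent.helper74.TG`, namespace `Pool.Agent.EP`; auxiliary lemmas prefixed `XX_`; other statements of
SpecE (and IDK_stmt) may be hypotheses. You may import the files of the TG library which are named in the docstrings. No sorry, no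
double quotes in the file.
-/

set_option autoImplicit false

open Finset
open scoped Real
open Pool.Agent.helper74.TG

noncomputable section

namespace Pool.Agent.EP

/-! ### Definitions -/

/-- The polynomial `3 m t² + 6 t`. With `u = m t + 1`: `m * hq m t + 3 = 3 u²`. -/
def hq (m t : ℕ) : ℕ := 3 * m * t ^ 2 + 6 * t

/-- The number of `y ≥ 1` with `4 y + 2 ≤ hq m t`. -/
def Yt (m t : ℕ) : ℕ := (hq m t - 2) / 4

/-- The sum over the solutions of `x + 4 y + 1 = hq m t`, `x, y ≥ 1`, `1 ≤ t ≤ T`, of `a x * b y`. -/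
def RR (m T : ℕ) (a b : ℕ → ℂ) : ℂ :=
  ∑ t ∈ Ioc 0 T, ∑ y ∈ Ioc 0 (Yt m t), a (hq m t - 1 - 4 * y) * b y

/-- The quadruples with `hq m t₁ + hq m t₂ = hq m t₃ + hq m t₄`. -/
def Qd (m T : ℕ) : Finset ((ℕ × ℕ) × (ℕ × ℕ)) :=
  {v ∈ (Ioc 0 T ×ˢ Ioc 0 T) ×ˢ (Ioc 0 T ×ˢ Ioc 0 T) |
    hq m v.1.1 + hq m v.1.2 = hq m v.2.1 + hq m v.2.2}

/-- The pairs `(t, y)` for which `m x + m - 1` and `m y + 1` are prime, `x = hq m t - 1 - 4 y ≥ 1`. -/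
def Sol (m T : ℕ) : Finset (ℕ × ℕ) :=
  {z ∈ Ioc 0 T ×ˢ Ioc 0 (hq m T) | 4 * z.2 + 2 ≤ hq m z.1 ∧
    (m * (hq m z.1 - 1 - 4 * z.2) + (m - 1)).Prime ∧ (m * z.2 + 1).Prime}

/-- The pairs `(u, q)`, `u` odd, `q = 1 mod 24`, `q` and `p = 3 u² - 4 q` prime and greater than `2 u`. -/
def Pq (U : ℕ) : Finset (ℕ × ℕ) :=
  {z ∈ Ioc 0 U ×ˢ range (U ^ 2) | z.1 % 2 = 1 ∧ z.2 % 24 = 1 ∧ z.2.Prime ∧ 2 * z.1 < z.2 ∧
    2 * z.1 + 4 * z.2 < 3 * z.1 ^ 2 ∧ (3 * z.1 ^ 2 - 4 * z.2).Prime}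

/-- `p(n)` is odd and `24 n - 1 = (4q - 3w²) p` or `24 n - 1 = q (p - 3w²)/4`, where `p = 3 u² - 4 q`. -/
def Frm (u q n : ℕ) : Prop := Odd (Fintype.card (Nat.Partition n)) ∧
  ((∃ w : ℕ, 3 * w ^ 2 < 4 * q ∧ 24 * n = (4 * q - 3 * w ^ 2) * (3 * u ^ 2 - 4 * q) + 1) ∨
    ∃ w : ℕ, 3 * w ^ 2 < 3 * u ^ 2 - 4 * q ∧ 96 * n = q * (3 * u ^ 2 - 4 * q - 3 * w ^ 2) + 4)

/-! ### The weights (copies of proofs in the TG library with other numbers) -/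

/-- **EAC** (medium, 180 lines, copy). The proof of `fw_close_of` in Pool/Agent/helper95/TG/WT4of.lean with the numbers
`15, 44, 88, 103, 191, 14` replaced by `42, 96, 192, 234, 426, 41` (`L^192 * L^42 = L^234`, `L^234 * L^192 = L^426`): from
`h61.fw_major_of siegel_walfisz 42 234 m c hm hc` (Pool/Agent/helper61/TG/WT2of.lean, Pool/Agent/helper74/TG/SW.lean) and
`fw_minor 42 m c hm hc` (Pool/Agent/helper61/TG/WT3.lean; its exponent is `2 * 42 + 12 = 96`). Here only `u = N` is needed. Import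
Pool.Agent.helper95.TG.WT4of for the lemmas `h95_...`. -/
def EAC_stmt : Prop := ∀ m c : ℕ, 0 < m → Nat.Coprime c m → ∃ N₀ : ℕ, ∀ N : ℕ, N₀ ≤ N → ∀ α : ℝ,
  ‖∑ x ∈ Ioc 0 N, ((fw m c x : ℂ) - gm m c ⌊Real.log N ^ 96⌋₊ x) * ee (x * α)‖
    ≤ N / Real.log N ^ 41

/-- **EAS** (short, 80 lines, copy). The proof of `gm_sq` in Pool/Agent/helper18/TG/WT5.lean with the numbers `44, 264, 11, 12` replaced by
`96, 576, 24, 25` (`(L^96)^(1/4) = L^24`, `(L^96)^6 = L^576`). The lemmas `h18_...` of that file may be imported. -/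
def EAS_stmt : Prop := ∀ m c : ℕ, 0 < m → 6 ∣ m → ∃ N₀ : ℕ, ∀ N : ℕ, N₀ ≤ N →
  ∑ x ∈ Ioc 0 N, ‖gm m c ⌊Real.log N ^ 96⌋₊ x‖ ^ 2 ≤ N * Real.log N ^ 25

/-! ### The fourth moment -/

/-- **EM4** (medium, 120 lines). The number of solutions of `A B = C D` in `(0, Z]`, `v = ((A, C), (B, D))`.
Proof. Fix `(A, C)`, `g = gcd(A, C)`, `A = g x`, `C = g y`, `x, y` coprime. `A B = C D` means `x B = y D`, so `B = y z`, `D = x z`, `z ≥ 1`, and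
`z ≤ Z / max(x,y)`: the number of `(B, D)` is at most `Z / max(x,y) = Z g / max(A,C)` (real numbers). So the number is at most
`∑_{A,C} Z gcd(A,C)/max(A,C) ≤ 2 ∑_{C ≤ Z} (Z/C) ∑_{A ≤ C} gcd(A,C)`, and
`∑_{1 ≤ A ≤ C} gcd(A,C) ≤ ∑_{d ∣ C} d (C/d) = C τ(C)` (`gcd(A,C) = d` only for `d ∣ C` and for multiples `A` of `d`). So it is at most
`2 Z ∑_{C ≤ Z} τ(C) = 2 Z ∑_{d ≤ Z} ⌊Z/d⌋ ≤ 2 Z² (1 + log Z)` (`harmonic_le_one_add_log`; `∑ τ`: exchange the sums). -/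
def EM4_stmt : Prop := ∀ Z : ℕ, 1 ≤ Z →
  (#{v ∈ (Ioc 0 Z ×ˢ Ioc 0 Z) ×ˢ (Ioc 0 Z ×ˢ Ioc 0 Z) | v.1.1 * v.2.1 = v.1.2 * v.2.2} : ℝ) ≤
    2 * (Z : ℝ) ^ 2 * (1 + Real.log Z)

/-- **EQ4** (medium, 90 lines; EM4). Proof. `u_i = m t_i + 1 ≤ m T + 1`, `m * hq m t + 3 = 3 u²`, so the condition is
`u₁² + u₂² = u₃² + u₄²` (`m ≥ 1`). If `t₁ = t₃` then `t₂ = t₄`: at most `T²` quadruples. If `t₁ > t₃`: `u₄ > u₂` and
`(u₁-u₃)(u₁+u₃) = (u₄-u₂)(u₄+u₂)`; the map to `((u₁-u₃, u₄-u₂), (u₁+u₃, u₄+u₂))` is injective, with values in `(0, Z]`, `Z = 2(mT+1)`: EM4.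
The case `t₁ < t₃` is symmetric. Total: `T² + 4 Z² (1 + log Z) ≤ 5 Z² (1 + log Z)`. -/
def EQ4_stmt : Prop := ∀ m T : ℕ, 1 ≤ m →
  (#(Qd m T) : ℝ) ≤ 5 * ((2 * (m * T + 1) : ℕ) : ℝ) ^ 2 * (1 + Real.log ((2 * (m * T + 1) : ℕ) : ℝ))

/-- **EF4** (medium, 80 lines). Proof. `(∑_t ee(h_t θ))² = ∑_{z ≤ 2 h_T} c(z) ee(z θ)`, `c(z)` = the number of `(t,t')` in `(0,T]²` with
`h_t + h_t' = z` (`hq m` is monotone, `h_t ≤ h_T`). `h61.parseval` (Pool/Agent/helper61/TG/WT6.lean) gives `P ∑ c(z)²`, and `∑ c(z)² = #(Qd m T)`. -/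
def EF4_stmt : Prop := ∀ m T P : ℕ, 2 * hq m T < P →
  ∑ k ∈ range P, ‖∑ t ∈ Ioc 0 T, ee ((hq m t : ℝ) * ((k : ℝ) / P))‖ ^ 4 = P * #(Qd m T)

/-! ### Comparison -/

/-- **EHO** (short, 50 lines). Proof. Cauchy-Schwarz: `(∑ E F W)² ≤ (∑ F²)(∑ E² W²)`; `∑ E² W² ≤ e ∑ E W²`, and
`(∑ E W²)² ≤ (∑ E²)(∑ W⁴)`. -/
def EHO_stmt : Prop := ∀ (P : ℕ) (E F W : ℕ → ℝ) (e : ℝ), (∀ k, 0 ≤ E k) → (∀ k, 0 ≤ F k) →
  (∀ k, 0 ≤ W k) → (∀ k, E k ≤ e) →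
  (∑ k ∈ range P, E k * F k * W k) ^ 4 ≤
    (∑ k ∈ range P, F k ^ 2) ^ 2 * e ^ 2 * (∑ k ∈ range P, E k ^ 2) * ∑ k ∈ range P, W k ^ 4

/-- **EID** (medium, 90 lines; see the proof of `h61.triple` in Pool/Agent/helper61/TG/WT6.lean). Proof. Multiply out: the right side is the sum over
`x, y ∈ (0, N]`, `t ∈ (0, T]`, `N = hq m T`, of `a x * b y * ∑_k ee(k (x + 4 y + 1 - h_t)/P)`, and the inner sum is `P` if
`x + 4 y + 1 = h_t`, else `0` (`h61.orth`; `|x + 4 y + 1 - h_t| ≤ 5 N + 1 < P`, if `T ≥ 1` then `N ≥ 6`; for `T = 0` everything is `0`).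
For given `t` the pairs `(x,y)` with `x + 4y + 1 = h_t`, `x, y ∈ (0,N]` are the pairs with `y ∈ Ioc 0 (Yt m t)`, `x = h_t - 1 - 4 y`. -/
def EID_stmt : Prop := ∀ (m T P : ℕ) (a b : ℕ → ℂ), 6 * hq m T < P →
  (P : ℂ) * RR m T a b = ∑ k ∈ range P,
    (∑ x ∈ Ioc 0 (hq m T), a x * ee (x * ((k : ℝ) / P))) *
    (∑ y ∈ Ioc 0 (hq m T), b y * ee (y * (4 * ((k : ℝ) / P)))) *
    (∑ t ∈ Ioc 0 T, ee (-((hq m t : ℝ) * ((k : ℝ) / P)))) * ee ((k : ℝ) / P)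

/-- **ETR** (medium, 90 lines; EHO, EID, EF4). Proof. `P = 6 N + 1`, `N = hq m T`, `A_k, B_k, T_k` the three sums in EID; so
`P ‖RR‖ ≤ ∑ ‖A_k‖ ‖B_k‖ ‖T_k‖`. In the first case EHO with `E = ‖A_k‖ ≤ e`, `F = ‖B_k‖`, `W = ‖T_k‖`; in the second case
`E = ‖B_k‖ ≤ e` (`α = 4 k/P`), `F = ‖A_k‖`. `∑_k ‖A_k‖² ≤ P S` (`h61.parseval`), `∑_k ‖B_k‖² ≤ P S` (`h61.parseval` with the index set
`(Ioc 0 N).image (4 * ·)` and the coefficients `z ↦ b (z/4)`; `4 N < P`), `∑_k ‖T_k‖⁴ = P #(Qd m T)` (EF4; `ee (-x)` is the conjugate).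
So `P⁴ ‖RR‖⁴ ≤ (P S)² e² (P S) (P #(Qd m T))`. -/
def ETR_stmt : Prop := ∀ (m T : ℕ) (a b : ℕ → ℂ) (e S : ℝ),
  ∑ x ∈ Ioc 0 (hq m T), ‖a x‖ ^ 2 ≤ S → ∑ x ∈ Ioc 0 (hq m T), ‖b x‖ ^ 2 ≤ S →
  ((∀ α : ℝ, ‖∑ x ∈ Ioc 0 (hq m T), a x * ee (x * α)‖ ≤ e) ∨
    ∀ α : ℝ, ‖∑ x ∈ Ioc 0 (hq m T), b x * ee (x * α)‖ ≤ e) →
  ‖RR m T a b‖ ^ 4 ≤ S ^ 3 * e ^ 2 * #(Qd m T)

/-- **ECE** (medium-long, 150 lines, real analysis; EAC, EAS, EQ4, ETR). Proof. Let `N = hq m T`, `L = log N`, `Q = ⌊L^96⌋`, `f = fw m (m-1)`,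
`f' = fw m 1`, `g, g'` the models. `RR` is bilinear, so `RR f f' - RR g g' = RR (f-g) f' + RR g (f'-g')`. For large `T` (`L ≥ 1`): the sums of the
squares over `(0,N]` of `f, f', g, g'` are `≤ N L^25` (`fw_sq` in Pool/Agent/helper18/TG/WT5.lean, EAS), those of the differences are `≤ 4 N L^25`. EAC:
the sup norms of the differences are `≤ e = N/L^41`. ETR with `S = 4 N L^25`, in the first and in the second case: each of the two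
terms has fourth power `≤ 64 N³ L^75 N² L^(-82) 5 Z² (1 + log Z) = 320 N⁵ Z² (1 + log Z)/L^7`, `Z = 2(mT+1)` (EQ4). `N ≤ 4 m T²`
(`m ≥ 6`), `Z ≤ 3 m T`, `1 + log Z ≤ L` for large `T` (`3 Z ≤ N`). So it is `≤ C m^7 T^12/L^6`, which is `≤ (m T³/200)^4` for large `T`. -/
def ECE_stmt : Prop := ∀ m : ℕ, 0 < m → 24 ∣ m → ∃ T₀ : ℕ, ∀ T : ℕ, T₀ ≤ T →
  ‖RR m T (fun x => (fw m (m - 1) x : ℂ)) (fun y => (fw m 1 y : ℂ)) -
    RR m T (gm m (m - 1) ⌊Real.log (hq m T) ^ 96⌋₊) (gm m 1 ⌊Real.log (hq m T) ^ 96⌋₊)‖ ≤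
      m * (T : ℝ) ^ 3 / 100

/-! ### The model -/

/-- **EQG** (medium, 80 lines). Gauss sum. Proof. `|S|² = ∑_{s,t ∈ range q} ee(a (h_s - h_t)/q)`. The summand depends only on the classes of `s, t`
mod `q`. Put `s = t + d`: `h_(t+d) - h_t = 6 m d t + 3 m d² + 6 d`. The sum over `t` of `ee(a (6 m d) t/q)` is `q` if `q ∣ 6 m a d`, i.e. `d = 0`,
else `0`. -/
def EQG_stmt : Prop := ∀ m a q : ℕ, 0 < q → Nat.Coprime q (6 * m) → Nat.Coprime a q →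
  ‖∑ t ∈ range q, ee ((a : ℝ) * (hq m t : ℝ) / q)‖ ^ 2 = q

/-- **EIN** (short, 60 lines; EQG). Incomplete sums. Proof. Strong induction on `v - u`. If `v - u < q`: at most `q` terms of absolute value `1`. Otherwise
split off `Ioc u (u+q)`; the sum over it is that of EQG by periodicity, of absolute value `√q = q/√q`. -/
def EIN_stmt : Prop := ∀ m a q u v : ℕ, 0 < q → Nat.Coprime q (6 * m) → Nat.Coprime a q → u ≤ v →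
  ‖∑ t ∈ Ioc u v, ee ((a : ℝ) * (hq m t : ℝ) / q)‖ ≤ ((v : ℝ) - u) / √(q : ℝ) + q

/-- **EAB** (short, 50 lines). Partial summation. Proof. `Y t = ∑_{j < Y T} [j < Y t]` for `t ≤ T`, so the sum is
`∑_{j < Y T} ∑_{t ≤ T, j < Y t} c t`, and `{t ∈ Ioc 0 T | j < Y t} = Ioc s T` for some `s ≤ T` as `Y` is monotone. (Or induction on `T`.) -/
def EAB_stmt : Prop := ∀ (T : ℕ) (c : ℕ → ℂ) (Y : ℕ → ℕ) (B : ℝ), Monotone Y →
  (∀ s ≤ T, ‖∑ t ∈ Ioc s T, c t‖ ≤ B) → ‖∑ t ∈ Ioc 0 T, c t * (Y t : ℂ)‖ ≤ Y T * B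

/-- **ERT** (short, 50 lines; EIN, EAB). Proof. `ee(a (h_t - 1)/q) = ee(a h_t/q) ee(-a/q)`, `Yt m` is monotone; EAB with `B = T/√q + q` (EIN). -/
def ERT_stmt : Prop := ∀ m a q T : ℕ, 0 < q → Nat.Coprime q (6 * m) → Nat.Coprime a q →
  ‖∑ t ∈ Ioc 0 T, ee ((a : ℝ) * ((hq m t : ℝ) - 1) / q) * (Yt m t : ℂ)‖ ≤
    Yt m T * ((T : ℝ) / √(q : ℝ) + q)

/-- **ENR** (short, 50 lines). Nonresonant pairs. Proof. `β = s.2/s.1 - 4 (r.2/r.1)`; for all integers `k`: `β - k = z/(r.1 s.1)` with an integer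
`z ≠ 0`, so `|β - k| ≥ 1/Q²`. `h95_geom` (Pool/Agent/helper95/TG/WT4of.lean) with `δ = 1/Q²`. -/
def ENR_stmt : Prop := ∀ (Q Y : ℕ) (r s : Σ _ : ℕ, ℕ), r ∈ Fa Q → s ∈ Fa Q →
  (¬ ∃ k : ℤ, (s.2 : ℝ) / s.1 - 4 * ((r.2 : ℝ) / r.1) = k) →
  ‖∑ y ∈ Ioc 0 Y, ee (y * ((s.2 : ℝ) / s.1 - 4 * ((r.2 : ℝ) / r.1)))‖ ≤ (Q : ℝ) ^ 2 / 2

/-- **ERC** (short, 50 lines). Resonant pairs. Proof. `s.2 * r.1 = (4 * r.2 + k * r.1) * s.1`. `4 r.2 + k r.1` is coprime to `r.1` (`r.1` is odd), so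
`r.1 ∣ s.1`; `s.2` is coprime to `s.1`, so `s.1 ∣ r.1`. So `s.1 = r.1`, `s.2 = 4 r.2 + k r.1`, `0 ≤ s.2 < r.1`. -/
def ERC_stmt : Prop := ∀ (Q : ℕ) (r s : Σ _ : ℕ, ℕ), r ∈ Fa Q → s ∈ Fa Q → r.1 % 2 = 1 →
  (∃ k : ℤ, (s.2 : ℝ) / s.1 - 4 * ((r.2 : ℝ) / r.1) = k) → s = ⟨r.1, (4 * r.2) % r.1⟩

/-- **ESQ** (short, 50 lines). Proof. With `u = (q-1)^(1/4)`, `v = q^(1/4)`: `v⁴ - u⁴ = 1`, so `v - u ≥ 1/(4 v³)` and
`1/u - 1/v = (v-u)/(uv) ≥ 1/(4 v⁵)`. Telescope (induction on `n`: `∑ ≤ 4 (p^(-1/4) - n^(-1/4))`). -/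
def ESQ_stmt : Prop := ∀ p n : ℕ, 1 ≤ p →
  ∑ q ∈ Ioc p n, 1 / (q : ℝ) ^ (5 / 4 : ℝ) ≤ 4 / (p : ℝ) ^ (1 / 4 : ℝ)

/-- **EXM** (short, 60 lines). Expansion. Proof. Insert the definition of `gm` and exchange the sums; for `y ∈ Ioc 0 (Yt m t)` the natural number
`x = h_t - 1 - 4 y` has the cast `h_t - 1 - 4 y`, and
`ee(r.2 x/r.1) ee(s.2 y/s.1) = ee(r.2 (h_t - 1)/r.1) ee(y (s.2/s.1 - 4 (r.2/r.1)))`. -/
def EXM_stmt : Prop := ∀ m c c' T Q : ℕ,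
  RR m T (gm m c Q) (gm m c' Q) = ∑ r ∈ Fa Q, ∑ s ∈ Fa Q, Hc m c r.2 r.1 * Hc m c' s.2 s.1 *
    ∑ t ∈ Ioc 0 T, ee ((r.2 : ℝ) * ((hq m t : ℝ) - 1) / r.1) *
      ∑ y ∈ Ioc 0 (Yt m t), ee (y * ((s.2 : ℝ) / s.1 - 4 * ((r.2 : ℝ) / r.1)))

/-- **EMC** (long, 200 lines; EXM, ENR, ERC, ERT, ESQ). The model count. Proof. EXM. All `‖Hc‖ ≤ 1` (`Hc_bound`; the lemmas
`Hc_one, Hc_bound, Hc_zero, totient_lower` are in Pool/Agent/helper18/TG/WT1.lean and its imports). The pairs `(r,s)` for which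
`β = s.2/s.1 - 4 (r.2/r.1)` is not an integer: at most `Q⁴` (`h95_card_Fa`), each contributes at most `T Q²/2` (ENR). If `β` is an integer the
inner sum is `Yt m t`. Let `r = (q,a)`. If `q` is not squarefree or not coprime to `m` then `Hc m c a q = 0` (`Hc_zero`). `q = 1`: `a = 0`, so
`s = (1,0)` (ERC), `Hc = 1` (`Hc_one`), the term is `∑_t Yt m t` (this is subtracted; the pair `(1,0),(1,0)` occurs). `q > 1` squarefree and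
coprime to `m`: it is odd and coprime to `6 m`, its prime factors are `> 10^8`, so `q > 10^8`; there is at most one `s` (ERC), with `s.1 = q`, and
`‖Hc Hc'‖ ≤ 1/φ(q)²`, so by ERT the term is `≤ Yt m T (T/√q + q)/φ(q)²`; there are `φ(q)` values of `a`. So the sum over these `r` is at most
`Yt m T ∑_{10^8 < q ≤ Q} (T/(√q φ(q)) + q/φ(q)) ≤ Yt m T (T ∑ q^(-5/4) + Q²)`, as `φ(q) ≥ q^(3/4)` (`totient_lower`) and `q/φ(q) ≤ Q`. ESQ with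
`p = 10^8`: `∑ q^(-5/4) ≤ 4/100` (work with a variable `p` and the hypothesis `(p:ℝ)^(1/4) = 100`). -/
def EMC_stmt : Prop := ∀ m c c' T Q : ℕ, 0 < m → 6 ∣ m →
  (∀ p : ℕ, p.Prime → p ≤ 10 ^ 8 → p ∣ m) → 1 ≤ Q →
  ‖RR m T (gm m c Q) (gm m c' Q) - ∑ t ∈ Ioc 0 T, (Yt m t : ℂ)‖ ≤
    Yt m T * ((T : ℝ) / 25 + (Q : ℝ) ^ 2) + T * (Q : ℝ) ^ 6

/-- **ECM** (medium, 100 lines, real analysis; EMC). Proof. `Yt m t ≥ (h_t - 5)/4 ≥ 3 m t²/4` (`t ≥ 1`: `6 t - 5 ≥ 1`), `∑_{t ≤ T} 3 t² ≥ T³`, so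
`∑ Yt m t ≥ m T³/4`. `Yt m T ≤ h_T/4 ≤ m T²` (`m ≥ 24`, `T ≥ 1`). EMC: `‖RR‖ ≥ m T³/4 - m T³/25 - m T² Q² - T Q⁶`, and `Q ≤ (log (hq m T))^96`,
so the last two terms are `≤ m T³/100` for large `T` (powers of the logarithm). -/
def ECM_stmt : Prop := ∀ m : ℕ, 0 < m → 24 ∣ m → (∀ p : ℕ, p.Prime → p ≤ 10 ^ 8 → p ∣ m) →
  ∃ T₀ : ℕ, ∀ T : ℕ, T₀ ≤ T → (m : ℝ) * (T : ℝ) ^ 3 / 6 ≤
    ‖RR m T (gm m (m - 1) ⌊Real.log (hq m T) ^ 96⌋₊) (gm m 1 ⌊Real.log (hq m T) ^ 96⌋₊)‖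

/-! ### The pairs of primes -/

/-- **ECT** (medium, 100 lines, real analysis; ECE, ECM). Proof. For large `T` the norm of `RR` of the weights `fw m (m-1)`, `fw m 1` is
`≥ m T³ (1/6 - 1/100) ≥ m T³/8`. Its terms are nonzero only for `(t,y) ∈ Sol m T` (`y ≤ Yt m t` iff `4 y + 2 ≤ hq m t`; `hq` is
monotone), and then `0 ≤ fw ≤ log (m (N+1)) ≤ 2 log N ≤ 6 log T`, `N = hq m T ≤ T³` for large `T`. So `#(Sol m T) (6 log T)² ≥ m T³/8`,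
and `m ≥ 24`. -/
def ECT_stmt : Prop := ∀ m : ℕ, 0 < m → 24 ∣ m → (∀ p : ℕ, p.Prime → p ≤ 10 ^ 8 → p ∣ m) →
  ∃ T₀ : ℕ, ∀ T : ℕ, T₀ ≤ T → (T : ℝ) ^ 3 / (12 * Real.log T ^ 2) ≤ #(Sol m T)

/-- **ECP** (medium, 120 lines; ECT). Proof. Let `m = 24 * (10^8)!` (keep it opaque: `obtain ⟨m, ..⟩ : ∃ m, 0 < m ∧ 24 ∣ m ∧ ..`, with a
variable in the place of `10^8`). Given `U` let `T = (U - 1)/m`, so `m T + 1 ≤ U`, `T ≥ U/(2m)` for large `U`. The map `(t,y) ↦ (u,q) = (m t + 1, m y + 1)` is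
injective. For `(t,y) ∈ Sol m T`: `p = 3u² - 4q = m (hq m t - 1 - 4 y) + (m-1)` is prime, `q` is prime, `u` is odd, `q = 1 mod 24`, `4 q < 3 u²`,
`q < U²`. So `(u,q) ∈ Pq U` unless `q ≤ 2u` or `p ≤ 2u`. If `q ≤ 2 u` then `y ≤ 2 U`: at most `T (2U)` pairs; if `p ≤ 2u` then
`x = hq m t - 1 - 4y ≤ 2 U` and `(t,x)` determines `y`: at most `T (2U)` pairs. So `#(Pq U) ≥ T³/(12 log² T) - 4 U² ≥ c U³/log² U`. -/
def ECP_stmt : Prop := ∃ c : ℝ, 0 < c ∧ ∃ U₀ : ℕ, ∀ U : ℕ, U₀ ≤ U →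
  c * (U : ℝ) ^ 3 / Real.log U ^ 2 ≤ #(Pq U)

/-! ### Odd values -/

/-- **EBO** (medium-long, 150 lines; IDK_stmt). Proof. `p = 3u² - 4q`, a prime, `p > 2u`. IDK with `a = 2`, `k = q`, `M = p` (`q = 1 mod 24` is prime to `6`):
`us 2 q p` is the set of the odd `v ≤ p + 4 q = 3 u²` with `4 ∣ p - 3 v²`; it contains `u` (`p - 3u² = -4q`), and the term for `v = u` is
`JG ac q (-q)`: the divisors of `q` are `1` and `q`, `ac (-q²) = 0`, `ac (-1) = pp 0 = 1`, so it is `1`. So one of the other terms of the left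
side or one of the terms of the right side is not `0`.
(L) `v ≠ u`, `M' = (p - 3v²)/4` (exact), `JG ac q M' ≠ 0`. `M' = 0`: all values `ac 0 = 0`. `M' < 0`: `ac (q M') = 0` as `q M' < -1`, and
`q ∣ M'`, `ac (M'/q) ≠ 0` only if `M' = -q`, i.e. `v = u`. So `M' > 0`, `3 v² < p`, `v < u`. `q ∤ M'`: otherwise `q ∣ p - 3v² + 4q = 3 (u-v)(u+v)`, so
`q ≤ 2u` (`q` prime, `q ≠ 3`). So `ac (q M') ≠ 0`: `q M' = 24 n - 1` and `p(n)` is odd, `w = v`.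
(R) `w ∈ ws (q 4)`, `j = 4q - 3w² > 0`, `JG ac j p ≠ 0`. `p ∤ j`: otherwise `p ∣ j + p = 3 (u-w)(u+w)`, `w < u`, so `p ≤ 2u` (`p ≠ 3`: `p = 3` would give
`2u < 3`, `u = 1`, `3 + 4 q = 3`). So `ac (j p) ≠ 0`, `j p = 24 n - 1`, `p(n)` odd. (`ac M ≠ 0` gives `M % 24 = 23` and `pp ((M+1)/24) ≠ 0`.) -/
def EBO_stmt : Prop := ∀ U u q : ℕ, (u, q) ∈ Pq U → ∃ n : ℕ, Frm u q n

/-- **EBN** (short, 40 lines). Proof. `p = 3u² - 4q > 0`, `4 (4q) p ≤ (4q + p)² = 9 u⁴`. First case: `24 n ≤ 4 q p + 1 ≤ 9u⁴/4 + 1 ≤ 24 u⁴`. Second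
case: `96 n ≤ q p + 4 ≤ 9 u⁴/16 + 4 ≤ 96 u⁴`. And `u ≤ U`. -/
def EBN_stmt : Prop := ∀ U u q n : ℕ, (u, q) ∈ Pq U → Frm u q n → n ≤ U ^ 4

open Classical in
/-- **EBM** (medium, 120 lines). Multiplicity. Proof. `z = (u,q)`, `p = 3u² - 4q`. First case of Frm: `j = 4q - 3w²`, `j p = 24 n - 1`. `p` is a divisor of
`24 n - 1` (at most `D` values), `j = (24n-1)/p`, and `j + p = 3u² - 3w² = 3 (u-w)(u+w)`, `u > w`, so `e = u - w` is a divisor of `j + p ≤ 3U²` (at most `D`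
values), `u + w = (j+p)/(3e)`: this determines `u`, and `q = (3u² - p)/4`. Second case: `4 (24 n - 1) = q (p - 3w²)`; `q` is an odd prime, so `q`
divides `24 n - 1` (at most `D` values), `i = p - 3w² = 4(24n-1)/q`, `i + 4q = 3 (u-w)(u+w)`, `e = u - w` is a divisor of `i + 4q ≤ 3U²`; this determines `u`.
(All the numbers are `≤ 24 U⁴`: `24 n - 1 ≤ 24 U⁴`, `3U² ≤ 24 U⁴`; if `n = 0` there is no such `z`.) -/
def EBM_stmt : Prop := ∀ U D : ℕ, (∀ k : ℕ, 0 < k → k ≤ 24 * U ^ 4 → #k.divisors ≤ D) →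
  ∀ n : ℕ, n ≤ U ^ 4 → #{z ∈ Pq U | Frm z.1 z.2 n} ≤ 2 * D ^ 2

/-- **EBC** (short, 50 lines; EBO, EBN, EBM). Proof. `Pq U` is the union over the `n ≤ U⁴` with `p(n)` odd of the sets in EBM. -/
def EBC_stmt : Prop := ∀ U D : ℕ, (∀ k : ℕ, 0 < k → k ≤ 24 * U ^ 4 → #k.divisors ≤ D) →
  #(Pq U) ≤ 2 * D ^ 2 * sO (U ^ 4)

/-- **EFI** (medium, 120 lines, real analysis; ECP, EBC). The theorem. Proof. We may assume `ε ≤ 1/2`. `U = ⌊X^(1/4)⌋`, so `U⁴ ≤ X`, `U ≥ X^(1/4)/2`. For large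
`X` the divisor function is `≤ D = ⌊X^(ε/8)⌋` for all `0 < k ≤ 24 X` (`card_divisors_le` in Pool/Agent/helper47/RA/Num.lean with the exponent `ε/16`:
`C (24 X)^(ε/16) ≤ X^(ε/8) - 1` for large `X`). `sO` is monotone, so `2 X^(ε/4) sO X ≥ 2 D² sO (U⁴) ≥ c U³/log² U ≥ (c/8) X^(3/4)/log² X ≥ 2 X^(3/4-ε/2)` for
large `X`. -/
def EFI_stmt : Prop := ∀ ε : ℝ, 0 < ε → ∃ X₀ : ℕ, ∀ X : ℕ, X₀ ≤ X →
  (X : ℝ) ^ (3 / 4 - ε) ≤ (sO X : ℝ)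

end Pool.Agent.EP
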